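import Pool.Agent.E8helper61.SI.Stm

/-!
# Piece CNT of project SI
-/

set_option autoImplicit false

namespace Pool.Agent.E8helper9.SI

open Finset Pool.Agent.E8helper61.SI

theorem small_card {β : Type} [DecidableEq β] (S : Finset β) (k : ℕ) :
    (S.powerset.filter (fun z => z.card ≤ k)).card ≤ Bs S.card k := by
  have h : S.powerset.filter (fun z => z.card ≤ k) ⊆
      (range (k + 1)).biUnion (fun j => powersetCard j S) := by
    intro z hz
    rw [mem_filter, mem_powerset] at hz
    rw [mem_biUnion]
    exact ⟨z.card, mem_range.2 (by omega), mem_powersetCard.2 ⟨hz.1, rfl⟩⟩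
  calc _ ≤ _ := card_le_card h
    _ ≤ ∑ j ∈ range (k + 1), (powersetCard j S).card := card_biUnion_le
    _ = Bs S.card k := by
      rw [Bs]
      exact sum_congr rfl (fun j _ => card_powersetCard j S)

theorem cnt : CountStatement := by
  intro β ι _ _ T Ω E₀ E r k
  induction T using Finset.induction_on generalizing Ω with
  | empty =>
    intro h0 _ _ _ _
    have h1 : Ω.powerset.filter (fun x => Disjoint x E₀ ∧
        ∀ i ∈ (∅ : Finset ι), (x ∩ E i).card ≤ k) ⊆ (Ω \ E₀).powerset := by
      intro x hx
      rw [mem_filter, mem_powerset] at hx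
      rw [mem_powerset]
      intro a ha
      rw [mem_sdiff]
      exact ⟨hx.1 ha, fun h => (Finset.disjoint_left.1 hx.2.1 ha) h⟩
    have h2 := card_le_card h1
    rw [card_powerset] at h2
    have h3 : (Ω \ E₀).card + E₀.card = Ω.card := card_sdiff_add_card_eq_card h0
    rw [card_empty, pow_zero, pow_zero, mul_one, mul_one, ← h3, pow_add]
    exact Nat.mul_le_mul_right _ h2
  | insert i T hi ih =>
    intro h0 hE hr hd hp
    have hdi : Disjoint (E i) E₀ := hd i (mem_insert_self i T)
    have hri : (E i).card = r := hr i (mem_insert_self i T)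
    have hEi : E i ⊆ Ω := hE i (mem_insert_self i T)
    have ih' := ih (Ω \ E i)
      (by
        intro a ha
        rw [mem_sdiff]
        exact ⟨h0 ha, fun h => (Finset.disjoint_left.1 hdi h) ha⟩)
      (by
        intro j hj a ha
        rw [mem_sdiff]
        refine ⟨hE j (mem_insert_of_mem hj) ha, fun h => ?_⟩
        have hne : i ≠ j := by
          rintro rfl
          exact hi hj
        exact (Finset.disjoint_left.1
          (hp i (mem_insert_self i T) j (mem_insert_of_mem hj) hne) h) ha)
      (fun j hj => hr j (mem_insert_of_mem hj))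
      (fun j hj => hd j (mem_insert_of_mem hj))
      (fun j hj l hl => hp j (mem_insert_of_mem hj) l (mem_insert_of_mem hl))
    set P' := (Ω \ E i).powerset.filter
      (fun x => Disjoint x E₀ ∧ ∀ j ∈ T, (x ∩ E j).card ≤ k) with hP'
    set Q := (E i).powerset.filter (fun z => z.card ≤ k) with hQ
    have hcard : (Ω.powerset.filter (fun x => Disjoint x E₀ ∧
        ∀ j ∈ insert i T, (x ∩ E j).card ≤ k)).card ≤ P'.card * Q.card := by
      rw [← card_product]
      apply card_le_card_of_injOn (fun x => (x \ E i, x ∩ E i))
      · intro x hx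
        rw [mem_coe, mem_filter, mem_powerset] at hx
        rw [mem_coe, mem_product, hP', hQ, mem_filter, mem_filter, mem_powerset, mem_powerset]
        refine ⟨⟨sdiff_subset_sdiff hx.1 (Finset.Subset.refl _),
          Finset.disjoint_of_subset_left sdiff_subset hx.2.1, fun j hj => ?_⟩,
          inter_subset_right, hx.2.2 i (mem_insert_self i T)⟩
        refine le_trans (card_le_card ?_) (hx.2.2 j (mem_insert_of_mem hj))
        exact inter_subset_inter_right sdiff_subset
      · intro x _ y _ hxy
        simp only [Prod.mk.injEq] at hxy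
        rw [← sdiff_union_inter x (E i), ← sdiff_union_inter y (E i), hxy.1, hxy.2]
    have hQc : Q.card ≤ Bs r k := by
      rw [← hri]
      exact small_card (E i) k
    have hΩ : (Ω \ E i).card + r = Ω.card := by
      rw [← hri]
      exact card_sdiff_add_card_eq_card hEi
    rw [card_insert_of_notMem hi]
    calc _ ≤ (P'.card * Q.card) * (2 ^ E₀.card * (2 ^ r) ^ (T.card + 1)) :=
          Nat.mul_le_mul_right _ hcard
      _ = (P'.card * (2 ^ E₀.card * (2 ^ r) ^ T.card)) * (Q.card * 2 ^ r) := by
          rw [pow_succ]; ring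
      _ ≤ (2 ^ (Ω \ E i).card * (Bs r k) ^ T.card) * (Bs r k * 2 ^ r) :=
          Nat.mul_le_mul ih' (Nat.mul_le_mul_right _ hQc)
      _ = 2 ^ Ω.card * (Bs r k) ^ (T.card + 1) := by
          rw [← hΩ, pow_add, pow_succ]; ring

end Pool.Agent.E8helper9.SI
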