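import Pool.Agent.E8helper61.SI.Stm

/-!
# Piece NUMA of project SI
-/

set_option autoImplicit false

namespace Pool.Agent.E8helper9.SI

open Finset Pool.Agent.E8helper61.SI

theorem forty_four (r n : ℕ) (h4 : 4 ≤ r) (hr : r ≤ n) (hn : n ^ 8 ≤ 2 ^ r) : 44 ≤ r := by
  have h1 : r ^ 8 ≤ 2 ^ r := le_trans (Nat.pow_le_pow_left hr 8) hn
  by_contra hcon
  push Not at hcon
  interval_cases r <;> norm_num at h1

theorem Bs_mul (r k : ℕ) (hk : k ≤ r) : Bs r k * 5 ^ (r - k) ≤ 6 ^ r := by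
  have h : (6 : ℕ) ^ r = ∑ i ∈ range (r + 1), r.choose i * 5 ^ (r - i) := by
    have h1 := add_pow (1 : ℕ) 5 r
    norm_num at h1
    rw [h1]
    apply Finset.sum_congr rfl
    intro i _
    ring
  rw [h, Bs, Finset.sum_mul]
  calc ∑ i ∈ range (k + 1), r.choose i * 5 ^ (r - k)
      ≤ ∑ i ∈ range (k + 1), r.choose i * 5 ^ (r - i) := by
        apply Finset.sum_le_sum
        intro i hi
        rw [Finset.mem_range] at hi
        exact Nat.mul_le_mul_left _ (Nat.pow_le_pow_right (by norm_num) (by omega))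
    _ ≤ ∑ i ∈ range (r + 1), r.choose i * 5 ^ (r - i) := by
        apply Finset.sum_le_sum_of_subset
        intro i hi
        rw [Finset.mem_range] at hi ⊢
        omega

theorem Bs_cube (r : ℕ) : Bs r (r / 6) ^ 3 ≤ 4 ^ r := by
  set k := r / 6 with hk
  have hk6 : 6 * k ≤ r := Nat.mul_div_le r 6
  have h1 := Bs_mul r k (by omega)
  have h2 : (Bs r k) ^ 6 * 5 ^ (5 * r) ≤ 16 ^ r * 5 ^ (5 * r) := by
    calc (Bs r k) ^ 6 * 5 ^ (5 * r) ≤ (Bs r k) ^ 6 * 5 ^ ((r - k) * 6) :=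
          Nat.mul_le_mul_left _ (Nat.pow_le_pow_right (by norm_num) (by omega))
      _ = (Bs r k * 5 ^ (r - k)) ^ 6 := by rw [mul_pow, pow_mul]
      _ ≤ (6 ^ r) ^ 6 := Nat.pow_le_pow_left h1 6
      _ = (6 ^ 6) ^ r := by rw [← pow_mul, ← pow_mul, mul_comm]
      _ ≤ (16 * 5 ^ 5) ^ r := Nat.pow_le_pow_left (by norm_num) r
      _ = 16 ^ r * 5 ^ (5 * r) := by rw [mul_pow, ← pow_mul]
  have h3 : (Bs r k) ^ 6 ≤ 16 ^ r := Nat.le_of_mul_le_mul_right h2 (by positivity)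
  have h4 : ((Bs r k) ^ 3) ^ 2 ≤ (4 ^ r) ^ 2 := by
    calc ((Bs r k) ^ 3) ^ 2 = (Bs r k) ^ 6 := by rw [← pow_mul]
      _ ≤ 16 ^ r := h3
      _ = (4 ^ r) ^ 2 := by rw [← pow_mul, mul_comm, pow_mul]; norm_num
  exact (Nat.pow_le_pow_iff_left (by norm_num)).1 h4

theorem growth (r : ℕ) (hr : 44 ≤ r) : (2 * (r + 1)) ^ 24 ≤ 2 ^ (5 * r) := by
  induction r, hr using Nat.le_induction with
  | base => norm_num
  | succ r hr ih =>
    have h1 : 7 * (2 * (r + 1 + 1)) ≤ 8 * (2 * (r + 1)) := by omega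
    have h2 : (7 * (2 * (r + 1 + 1))) ^ 24 ≤ (8 * (2 * (r + 1))) ^ 24 :=
      Nat.pow_le_pow_left h1 24
    rw [mul_pow 7, mul_pow 8] at h2
    have h3 : 7 ^ 24 * (2 * (r + 1 + 1)) ^ 24 ≤ 7 ^ 24 * 2 ^ (5 * (r + 1)) := by
      calc 7 ^ 24 * (2 * (r + 1 + 1)) ^ 24 ≤ 8 ^ 24 * (2 * (r + 1)) ^ 24 := h2
        _ ≤ 8 ^ 24 * 2 ^ (5 * r) := Nat.mul_le_mul_left _ ih
        _ ≤ (7 ^ 24 * 32) * 2 ^ (5 * r) := Nat.mul_le_mul_right _ (by norm_num)
        _ = 7 ^ 24 * 2 ^ (5 * (r + 1)) := by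
          rw [show 5 * (r + 1) = 5 * r + 5 by ring, pow_add]; ring
    exact Nat.le_of_mul_le_mul_left h3 (by positivity)

theorem numA : NumAStatement := by
  intro r n h4 hr hn
  have h44 := forty_four r n h4 hr hn
  have hB := Bs_cube r
  have hg := growth r h44
  set B := Bs r (r / 6) with hBdef
  have key : (2 * ((r + 1) * n * B)) ^ 24 ≤ (2 ^ r) ^ 24 := by
    calc (2 * ((r + 1) * n * B)) ^ 24 = (2 * (r + 1)) ^ 24 * (n ^ 8) ^ 3 * (B ^ 3) ^ 8 := by ring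
      _ ≤ 2 ^ (5 * r) * (2 ^ r) ^ 3 * (4 ^ r) ^ 8 :=
        Nat.mul_le_mul (Nat.mul_le_mul hg (Nat.pow_le_pow_left hn 3)) (Nat.pow_le_pow_left hB 8)
      _ = (2 ^ r) ^ 24 := by
        rw [show (4 : ℕ) = 2 ^ 2 by norm_num, ← pow_mul, ← pow_mul, ← pow_mul, ← pow_mul,
          ← pow_add, ← pow_add]
        congr 1
        ring
  exact (Nat.pow_le_pow_iff_left (by norm_num)).1 key

end Pool.Agent.E8helper9.SI
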