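import Pool.Agent.E8helper61.SI.Stm3

/-!
# Piece C1 of project SI3
-/

set_option autoImplicit false

namespace Pool.Agent.E8helper9.SI

open Finset Pool.Agent.E8helper61.SI Filter

theorem c1_core (s : ℝ) (hs : 2 ≤ s) (hexp : Real.exp (-(s / 8)) ≤ 1 / s ^ 12) (x : ℝ)
    (hx1 : 1 ≤ x) (hx2 : x ≤ 2) :
    uf x ≤ Real.exp (-((Real.log 2 - wf (1 / s ^ 2) x) / s) + 1 / s ^ 12) := by
  have hs0 : 0 < s := by linarith
  have hs0' : s ≠ 0 := hs0.ne'
  set lam : ℝ := 1 / s ^ 2 with hlam
  have hlam0 : 0 < lam := by positivity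
  have hlam1 : lam ≤ 1 / 4 := by
    rw [hlam]
    apply one_div_le_one_div_of_le (by norm_num)
    nlinarith
  have hls : lam * s ^ 2 = 1 := by rw [hlam]; field_simp
  set y : ℝ := 1 - x / 2 with hy
  have hy0 : 0 ≤ y := by rw [hy]; linarith
  have hy1 : y ≤ 1 / 2 := by rw [hy]; linarith
  set a : ℝ := 1 - y with ha
  have ha0 : 0 < a := by rw [ha]; linarith
  have hxa : x = 2 * a := by rw [ha, hy]; ring
  have hxy : 2 - x = 2 * y := by rw [hy]; ring
  set S : ℝ := a ^ (1 - lam) + y ^ (1 - lam) with hS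
  have hS0 : 0 < S := by
    have h1 : 0 < a ^ (1 - lam) := Real.rpow_pos_of_pos ha0 _
    have h2 : 0 ≤ y ^ (1 - lam) := Real.rpow_nonneg hy0 _
    rw [hS]
    linarith
  have hM : Mf lam x = (2 : ℝ) ^ (-lam) * S := by
    unfold Mf
    rw [hxy, hxa, Real.mul_rpow (by norm_num) ha0.le, Real.mul_rpow (by norm_num) hy0]
    have h1 : (2 : ℝ) ^ (1 - lam) = 2 * (2 : ℝ) ^ (-lam) := by
      rw [sub_eq_add_neg, Real.rpow_add (by norm_num), Real.rpow_one]
    rw [h1, hS]
    ring
  have hw : Real.log 2 - wf lam x = Real.log S / lam := by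
    unfold wf
    rw [hM, one_div, Real.log_inv, Real.log_mul (by positivity) hS0.ne',
      Real.log_rpow (by norm_num)]
    field_simp
    ring
  -- the first term
  have hA : a ^ (1 - lam) ≤ a + lam * y := by
    have h1 := Real.geom_mean_le_arith_mean2_weighted (w₁ := 1 - lam) (w₂ := lam) (p₁ := a)
      (p₂ := 1) (by linarith) hlam0.le ha0.le zero_le_one (by ring)
    rw [Real.one_rpow, mul_one, mul_one] at h1
    have h2 : y = 1 - a := by rw [ha]; ring
    rw [h2]
    linarith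
  -- the second term
  set E : ℝ := Real.exp (-((s ^ 2 - 1) / (4 * s))) with hE
  have hB : y ^ (1 - lam) ≤ y + 1 / (2 * s) * y + lam * E := by
    have h1 := Real.geom_mean_le_arith_mean2_weighted (w₁ := 1 - lam) (w₂ := lam)
      (p₁ := Real.exp (1 / (4 * s)) * y) (p₂ := E) (by linarith) hlam0.le
      (by positivity) (Real.exp_pos _).le (by ring)
    have h2 : (Real.exp (1 / (4 * s)) * y) ^ (1 - lam) * E ^ lam = y ^ (1 - lam) := by
      rw [Real.mul_rpow (Real.exp_pos _).le hy0, hE, ← Real.exp_mul, ← Real.exp_mul,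
        mul_right_comm, ← Real.exp_add]
      have h3 : 1 / (4 * s) * (1 - lam) + -((s ^ 2 - 1) / (4 * s)) * lam = 0 := by
        field_simp
        linear_combination -hls
      rw [h3, Real.exp_zero, one_mul]
    rw [h2] at h1
    have h4 : Real.exp (1 / (4 * s)) ≤ 1 + 1 / (2 * s) := by
      have h5 : |1 / (4 * s)| ≤ 1 := by
        rw [abs_of_pos (by positivity), div_le_one (by positivity)]
        linarith
      have h6 := Real.abs_exp_sub_one_le h5
      rw [abs_of_pos (show (0 : ℝ) < 1 / (4 * s) by positivity)] at h6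
      have h7 := le_trans (le_abs_self _) h6
      have h8 : 2 * (1 / (4 * s)) = 1 / (2 * s) := by field_simp; norm_num
      linarith
    have h5 : (1 - lam) * (Real.exp (1 / (4 * s)) * y) ≤ Real.exp (1 / (4 * s)) * y := by
      have h6 : 0 ≤ Real.exp (1 / (4 * s)) * y := by positivity
      nlinarith
    have h6 : Real.exp (1 / (4 * s)) * y ≤ (1 + 1 / (2 * s)) * y :=
      mul_le_mul_of_nonneg_right h4 hy0
    linarith
  have hlog : Real.log S ≤ lam * y + 1 / (2 * s) * y + lam * E := by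
    have h1 := Real.log_le_sub_one_of_pos hS0
    have h2 : a + y = 1 := by rw [ha]; ring
    rw [hS] at h1 ⊢
    linarith
  have hEle : E ≤ 1 / s ^ 12 := by
    refine le_trans ?_ hexp
    rw [hE]
    apply Real.exp_le_exp.2
    rw [neg_le_neg_iff, div_le_div_iff₀ (by norm_num) (by positivity)]
    nlinarith
  have hmain : Real.log S / lam / s ≤ y + 1 / s ^ 12 := by
    have h1 : Real.log S / lam / s ≤ (lam * y + 1 / (2 * s) * y + lam * E) / lam / s := by
      gcongr
    have h2 : (lam * y + 1 / (2 * s) * y + lam * E) / lam / s = y / s + y / 2 + E / s := by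
      rw [hlam]
      field_simp
    have h3 : y / s ≤ y / 2 := by
      apply div_le_div_of_nonneg_left hy0 (by norm_num) hs
    have hE0 : 0 < E := Real.exp_pos _
    have h4 : E / s ≤ E := by
      rw [div_le_iff₀ hs0]
      nlinarith
    rw [h2] at h1
    linarith
  have huf : uf x ≤ 1 - y := by
    unfold uf
    rw [hxa]
    have h1 : 2 * (1 - 1 / (2 * a)) = 2 - 1 / a := by field_simp
    rw [h1]
    have h2 : 1 + y ≤ 1 / a := by
      rw [le_div_iff₀ ha0, ha]
      nlinarith
    linarith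
  refine le_trans huf ?_
  have h1 : 1 - y ≤ Real.exp (-y) := by
    have := Real.add_one_le_exp (-y)
    linarith
  refine le_trans h1 (Real.exp_le_exp.2 ?_)
  rw [hw]
  linarith

theorem c1 : C1Statement := by
  have h1 : Tendsto (fun t : ℕ => √(√(t : ℝ))) atTop atTop :=
    Real.tendsto_sqrt_atTop.comp (Real.tendsto_sqrt_atTop.comp tendsto_natCast_atTop_atTop)
  have h2 : ∀ᶠ s : ℝ in atTop, Real.exp (-(s / 8)) ≤ 1 / s ^ 12 := by
    have h3 := Real.tendsto_pow_mul_exp_neg_atTop_nhds_zero 12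
    have h4 : Tendsto (fun s : ℝ => s / 8) atTop atTop :=
      tendsto_id.atTop_div_const (by norm_num)
    have h5 := (h3.comp h4).eventually (gt_mem_nhds (show (0 : ℝ) < 1 / 8 ^ 12 by norm_num))
    filter_upwards [h5, eventually_gt_atTop 0] with s hs hs0
    simp only [Function.comp] at hs
    rw [le_div_iff₀ (by positivity)]
    rw [div_pow] at hs
    have h6 : s ^ 12 / 8 ^ 12 * Real.exp (-(s / 8)) = (Real.exp (-(s / 8)) * s ^ 12) / 8 ^ 12 := by
      ring
    rw [h6, div_lt_div_iff_of_pos_right (by norm_num)] at hs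
    exact hs.le
  have h3 := h1.eventually (h2.and (eventually_ge_atTop 2))
  obtain ⟨t0, ht0⟩ := eventually_atTop.1 h3
  refine ⟨t0, fun t ht x hx1 hx2 => ?_⟩
  obtain ⟨h4, h5⟩ := ht0 t ht
  have h6 := c1_core _ h5 h4 x hx1 hx2
  have e1 : (√(√(t : ℝ))) ^ 2 = √(t : ℝ) := Real.sq_sqrt (Real.sqrt_nonneg _)
  have e2 : (√(√(t : ℝ))) ^ 12 = (t : ℝ) ^ 3 := by
    calc (√(√(t : ℝ))) ^ 12 = ((√(√(t : ℝ))) ^ 2) ^ 6 := by ring
      _ = ((√(t : ℝ)) ^ 2) ^ 3 := by rw [e1]; ring
      _ = (t : ℝ) ^ 3 := by rw [Real.sq_sqrt (Nat.cast_nonneg t)]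
  rw [e1, e2] at h6
  exact h6

end Pool.Agent.E8helper9.SI
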